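import Pool.Agent.H73.GMS.Stmts

/-! Row SPL of board gms. -/

set_option autoImplicit false

namespace GMS

theorem SPL_fin {α : Type*} {Good : Set α → Prop} (hG : FinChar Good) {N : Set α}
    {w : α} (hw : ¬ Good (N ∪ {w})) : ∃ G : Set α, G ⊆ N ∧ G.Finite ∧ ¬ Good (G ∪ {w}) := by
  by_contra hcon
  push Not at hcon
  apply hw
  apply hG.2.2
  intro T hT hTf
  have h1 : T \ {w} ⊆ N := by
    rintro x ⟨hx, hxw⟩
    rcases hT hx with h | h
    · exact h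
    · exact absurd h hxw
  have h2 := hcon _ h1 (hTf.subset Set.sdiff_subset)
  refine hG.2.1 _ _ ?_ h2
  intro x hx
  by_cases h : x = w
  · exact Or.inr h
  · exact Or.inl ⟨hx, h⟩

theorem SPL_max {α : Type*} {Good : Set α → Prop} {N : Set α} (hN : Mx Good N)
    {w : α} (hw : w ∉ N) : ¬ Good (N ∪ {w}) := by
  intro h
  have h1 := hN.2 _ h Set.subset_union_left
  apply hw
  rw [← h1]
  exact Or.inr rfl

theorem SPL_dec {α : Type*} {Good : Set α → Prop} (hG : FinChar Good) {N : Set α}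
    (hN : Mx Good N) (a : α) {A : Set α} (hA : A ⊆ N) (hAf : A.Finite) :
    ∃ B : Set α, B.Finite ∧ A ⊆ B ∧ B ⊆ N ∧ (a ∈ B ∨ ¬ Good (B ∪ {a})) := by
  by_cases ha : a ∈ N
  · refine ⟨A ∪ {a}, hAf.union (Set.finite_singleton a), Set.subset_union_left, ?_,
      Or.inl (Or.inr rfl)⟩
    apply Set.union_subset hA
    rintro x rfl
    exact ha
  · obtain ⟨G, hGN, hGf, hGb⟩ := SPL_fin hG (SPL_max hN ha)
    refine ⟨A ∪ G, hAf.union hGf, Set.subset_union_left, Set.union_subset hA hGN, Or.inr ?_⟩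
    intro h
    apply hGb
    refine hG.2.1 _ _ ?_ h
    rintro x (hx | hx)
    · exact Or.inl (Or.inr hx)
    · exact Or.inr hx

theorem SPL {α : Type*} (hEXM : EXMStmt α) : SPLStmt α := by
  intro Good hG hsp S a hSf hS
  obtain ⟨N, hN, hSN⟩ := hEXM Good hG S hS
  obtain ⟨N', hN', hSN', hne⟩ := hsp N hN S hSN hSf
  obtain ⟨w, hwN, hwN'⟩ : ∃ w, w ∈ N ∧ w ∉ N' := by
    by_contra hcon
    push Not at hcon
    exact hne (hN.2 N' hN'.1 hcon)
  obtain ⟨G, hGN, hGf, hGb⟩ := SPL_fin hG (SPL_max hN' hwN')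
  obtain ⟨S₀, h0f, h0A, h0N, h0a⟩ := SPL_dec hG hN a (A := S ∪ {w})
    (Set.union_subset hSN (by rintro x rfl; exact hwN)) (hSf.union (Set.finite_singleton w))
  obtain ⟨S₁, h1f, h1A, h1N, h1a⟩ := SPL_dec hG hN' a (A := S ∪ G)
    (Set.union_subset hSN' hGN) (hSf.union hGf)
  refine ⟨S₀, S₁, h0f, h1f, hG.2.1 _ _ h0N hN.1, hG.2.1 _ _ h1N hN'.1,
    Set.subset_union_left.trans h0A, Set.subset_union_left.trans h1A, ?_, h0a, h1a⟩
  rintro T hT ⟨hT0, hT1⟩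
  apply hGb
  refine hG.2.1 _ _ ?_ hT
  rintro x (hx | hx)
  · exact hT1 (h1A (Or.inr hx))
  · exact hT0 (h0A (Or.inr hx))

end GMS
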